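import Mathlib
import Pool.Agent.H28.BF.Stm

set_option autoImplicit false

/-!
# Project BF, module REC
-/

namespace Pool.Agent.H42.BF

open Finset Pool.Agent.H28.BF

theorem nd_le (x : ℝ) (m : ℤ) : nd x ≤ |x - m| := round_le x m

/-- a finite set of naturals of diameter at most `R` -/
theorem card_diam (s : Finset ℕ) (R : ℝ) (hR : 0 ≤ R)
    (h : ∀ a ∈ s, ∀ b ∈ s, (a : ℝ) - b ≤ R) : (s.card : ℝ) ≤ R + 1 := by
  rcases s.eq_empty_or_nonempty with rfl | hs
  · simp only [card_empty, Nat.cast_zero]; linarith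
  · have h1 : s ⊆ Icc (s.min' hs) (s.max' hs) :=
      fun x hx => mem_Icc.2 ⟨min'_le _ _ hx, le_max' _ _ hx⟩
    have h2 := card_le_card h1
    rw [Nat.card_Icc] at h2
    have h3 := h _ (s.max'_mem hs) _ (s.min'_mem hs)
    have h6 : (s.card : ℝ) + s.min' hs ≤ s.max' hs + 1 := by
      have : s.card + s.min' hs ≤ s.max' hs + 1 := by
        have h4 : s.min' hs ≤ s.max' hs := min'_le _ _ (s.max'_mem hs)
        omega
      exact_mod_cast this
    linarith

/-- points of an arithmetic progression of the circle near zero -/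
theorem cnt_line (y b κ : ℝ) (T : ℕ) (hb : b ≠ 0) (hκ : 0 ≤ κ) (hκ2 : κ ≤ 1 / 2) :
    (((range (T + 1)).filter (fun t : ℕ => nd (y + t * b) ≤ κ)).card : ℝ) ≤
      (2 * κ / |b| + 1) * (T * |b| + 2) := by
  set s := (range (T + 1)).filter (fun t : ℕ => nd (y + t * b) ≤ κ) with hs
  have hb0 : 0 < |b| := abs_pos.2 hb
  have hn : ∀ m ∈ Icc ⌈min y (y + T * b) - κ⌉ ⌊max y (y + T * b) + κ⌋,
      (s.filter (fun t : ℕ => round (y + t * b) = m)).card ≤ ⌊2 * κ / |b| + 1⌋₊ := by
    intro m _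
    apply Nat.le_floor
    refine card_diam _ _ (by positivity) ?_
    intro a ha c hc'
    simp only [hs, mem_filter, nd] at ha hc'
    obtain ⟨⟨_, ha1⟩, ha2⟩ := ha
    obtain ⟨⟨_, hc1⟩, hc2⟩ := hc'
    rw [ha2] at ha1
    rw [hc2] at hc1
    rw [le_div_iff₀ hb0]
    have e1 : ((a : ℝ) - c) * |b| ≤ |((a : ℝ) - c) * b| := by
      rw [abs_mul]; exact mul_le_mul_of_nonneg_right (le_abs_self _) hb0.le
    have e2 : ((a : ℝ) - c) * b = (y + a * b - m) - (y + c * b - m) := by ring
    have e3 : |(y + a * b - m) - (y + c * b - m)| ≤ 2 * κ := by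
      rw [abs_le] at ha1 hc1 ⊢
      constructor <;> linarith [ha1.1, ha1.2, hc1.1, hc1.2]
    rw [e2] at e1
    exact e1.trans e3
  have hmaps : ∀ t ∈ s, round (y + (t : ℝ) * b) ∈
      Icc ⌈min y (y + T * b) - κ⌉ ⌊max y (y + T * b) + κ⌋ := by
    intro t ht
    simp only [hs, mem_filter, mem_range, nd] at ht
    obtain ⟨h1, h2⟩ := ht
    have h3 := abs_le.1 h2
    have htT : (t : ℝ) ≤ T := by exact_mod_cast (by omega : t ≤ T)
    have ht0 : (0 : ℝ) ≤ t := Nat.cast_nonneg t
    rw [mem_Icc, Int.ceil_le, Int.le_floor]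
    rcases le_total 0 b with hb1 | hb1
    · have a1 : (t : ℝ) * b ≤ T * b := mul_le_mul_of_nonneg_right htT hb1
      have a2 : 0 ≤ (t : ℝ) * b := mul_nonneg ht0 hb1
      have a3 := min_le_left y (y + T * b)
      have a4 := le_max_right y (y + T * b)
      constructor <;> linarith [h3.1, h3.2]
    · have a1 : (T : ℝ) * b ≤ t * b := mul_le_mul_of_nonpos_right htT hb1
      have a2 : (t : ℝ) * b ≤ 0 := mul_nonpos_of_nonneg_of_nonpos ht0 hb1
      have a3 := min_le_right y (y + T * b)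
      have a4 := le_max_left y (y + T * b)
      constructor <;> linarith [h3.1, h3.2]
  have h1 := card_le_mul_card_image_of_maps_to hmaps _ hn
  have h2 : ((Icc ⌈min y (y + T * b) - κ⌉ ⌊max y (y + T * b) + κ⌋).card : ℝ) ≤ T * |b| + 2 := by
    rw [Int.card_Icc]
    rcases le_total (⌊max y (y + T * b) + κ⌋ + 1 - ⌈min y (y + T * b) - κ⌉) 0 with h3 | h3
    · rw [Int.toNat_of_nonpos h3]
      have : (0 : ℝ) ≤ T * |b| := by positivity
      push_cast; linarith
    · have h4 : (((⌊max y (y + T * b) + κ⌋ + 1 - ⌈min y (y + T * b) - κ⌉).toNat : ℤ) : ℝ) =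
          ((⌊max y (y + T * b) + κ⌋ + 1 - ⌈min y (y + T * b) - κ⌉ : ℤ) : ℝ) := by
        rw [Int.toNat_of_nonneg h3]
      rw [Int.cast_natCast] at h4
      rw [h4]
      push_cast
      have h5 := Int.floor_le (max y (y + T * b) + κ)
      have h6 := Int.le_ceil (min y (y + T * b) - κ)
      have h7 : max y (y + T * b) - min y (y + T * b) = T * |b| := by
        rw [max_sub_min_eq_abs]
        rw [show y + T * b - y = T * b by ring, abs_mul, Nat.abs_cast]
      linarith
  have h3 : (s.card : ℝ) ≤ (⌊2 * κ / |b| + 1⌋₊ : ℝ) *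
      ((Icc ⌈min y (y + T * b) - κ⌉ ⌊max y (y + T * b) + κ⌋).card : ℝ) := by exact_mod_cast h1
  have h4 : (⌊2 * κ / |b| + 1⌋₊ : ℝ) ≤ 2 * κ / |b| + 1 := Nat.floor_le (by positivity)
  refine h3.trans (mul_le_mul h4 h2 (Nat.cast_nonneg _) (by positivity))

/-- **(REC)** -/
theorem t_REC : S_REC := by
  intro c hc
  obtain ⟨L, hL⟩ : ∃ L : ℕ, 2 / c + 1 ≤ L := exists_nat_ge _
  have hL1 : (1 : ℝ) ≤ L := by have : 0 < 2 / c := by positivity
                               linarith
  have hL1' : 1 ≤ L := by exact_mod_cast hL1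
  obtain ⟨C0, hC0⟩ : ∃ C0 : ℕ, 8 * L / c ≤ C0 := exists_nat_ge _
  refine ⟨C0 + L, min (c / 16) (1 / 2), by omega, by positivity, ?_⟩
  intro N θ κ hN hκ hκ0 hH
  set H := (Icc 1 N).filter (fun h : ℕ => nd (h * θ) ≤ κ) with hHd
  have hκ1 : κ ≤ c / 16 := hκ0.trans (min_le_left _ _)
  have hκ2 : κ ≤ 1 / 2 := hκ0.trans (min_le_right _ _)
  have hNr : (C0 : ℝ) + L ≤ N := by exact_mod_cast hN
  have hN0 : (0 : ℝ) < N := by
    have : (0 : ℝ) ≤ C0 := Nat.cast_nonneg _
    linarith
  have hLc : 2 / c < L := by linarith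
  have hLc' : 2 < L * c := by rwa [div_lt_iff₀ hc] at hLc
  have hC' : 8 * L ≤ c * C0 := by rw [div_le_iff₀ hc] at hC0; linarith
  have hcN : 8 * L ≤ c * N := by
    have : c * C0 ≤ c * N := by
      have h0 : (C0 : ℝ) ≤ N := by linarith
      exact mul_le_mul_of_nonneg_left h0 hc.le
    linarith
  -- pigeonhole
  have hmap : ∀ h ∈ H, h / L ∈ range (N / L + 1) := by
    intro h hh
    rw [hHd, mem_filter, mem_Icc] at hh
    rw [mem_range]
    exact Nat.lt_succ_of_le (Nat.div_le_div_right hh.1.2)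
  have hcard : (range (N / L + 1)).card < H.card := by
    rw [card_range]
    have h1 : ((N / L : ℕ) : ℝ) ≤ N / L := Nat.cast_div_le
    have h2 : (N : ℝ) / L ≤ c * N / 2 := by
      rw [div_le_iff₀ (by linarith)]
      nlinarith
    have h3 : (((N / L + 1 : ℕ)) : ℝ) < H.card := by
      push_cast
      refine lt_of_lt_of_le ?_ hH
      nlinarith
    exact_mod_cast h3
  obtain ⟨x, hx, y, hy, hxy, hfe⟩ := exists_ne_map_eq_of_card_lt_of_maps_to hcard hmap
  -- the difference
  obtain ⟨q, hq1, hqL, hq2⟩ : ∃ q : ℕ, 1 ≤ q ∧ q ≤ L ∧ nd (q * θ) ≤ 2 * κ := by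
    have key : ∀ x ∈ H, ∀ y ∈ H, x < y → x / L = y / L →
        ∃ q : ℕ, 1 ≤ q ∧ q ≤ L ∧ nd (q * θ) ≤ 2 * κ := by
      intro x hx y hy hlt hfe
      rw [hHd, mem_filter] at hx hy
      refine ⟨y - x, by omega, ?_, ?_⟩
      · have h1 := Nat.div_add_mod x L
        have h2 := Nat.div_add_mod y L
        have h3 := Nat.mod_lt y (by omega : 0 < L)
        rw [hfe] at h1
        omega
      · refine (nd_le _ (round ((y : ℝ) * θ) - round ((x : ℝ) * θ))).trans ?_
        have h1 := hx.2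
        have h2 := hy.2
        unfold nd at h1 h2
        rw [abs_le] at h1 h2 ⊢
        rw [Nat.cast_sub hlt.le]
        push_cast
        constructor <;> linarith [h1.1, h1.2, h2.1, h2.2]
    rcases lt_or_gt_of_ne hxy with h | h
    · exact key x hx y hy h hfe
    · exact key y hy x hx h hfe.symm
  refine ⟨q, hq1, by omega, ?_⟩
  set b : ℝ := q * θ - round ((q : ℝ) * θ) with hb
  have hbn : nd (q * θ) = |b| := rfl
  rw [hbn] at hq2 ⊢
  by_cases hb0 : b = 0
  · rw [hb0, abs_zero]; positivity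
  have hbp : 0 < |b| := abs_pos.2 hb0
  have hmq : ∀ h ∈ H, h % q ∈ range q := fun h _ => mem_range.2 (Nat.mod_lt _ hq1)
  have hsum := card_eq_sum_card_fiberwise hmq
  have hone : ∀ r ∈ range q, ((H.filter (fun h => h % q = r)).card : ℝ) ≤
      (2 * κ / |b| + 1) * ((N / q : ℕ) * |b| + 2) := by
    intro r _
    refine le_trans ?_ (cnt_line (r * θ) b κ (N / q) hb0 hκ hκ2)
    have : (H.filter (fun h => h % q = r)).card ≤
        ((range (N / q + 1)).filter (fun t : ℕ => nd (r * θ + t * b) ≤ κ)).card := by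
      refine card_le_card_of_injOn (fun h => h / q) ?_ ?_
      · intro h hh
        simp only [hHd, coe_filter, mem_filter, mem_Icc, Set.mem_ofPred_eq, mem_range] at hh ⊢
        obtain ⟨⟨⟨h1, h2⟩, h3⟩, h4⟩ := hh
        refine ⟨Nat.lt_succ_of_le (Nat.div_le_div_right h2), ?_⟩
        refine (nd_le _ (round ((h : ℝ) * θ) - (h / q : ℕ) * round ((q : ℝ) * θ))).trans ?_
        refine le_of_eq_of_le ?_ h3
        unfold nd
        congr 1
        have h5 : (h : ℝ) = q * (h / q : ℕ) + r := by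
          have := Nat.div_add_mod h q
          rw [h4] at this
          exact_mod_cast this.symm
        have h6 : (h : ℝ) * θ = q * (h / q : ℕ) * θ + r * θ := by
          calc (h : ℝ) * θ = (q * (h / q : ℕ) + r) * θ := by rw [← h5]
            _ = _ := by ring
        rw [h6, hb]
        generalize h / q = t
        push_cast
        ring
      · intro h hh h' hh' he
        simp only [coe_filter, Set.mem_ofPred_eq] at hh hh' he
        have h1 := Nat.div_add_mod h q
        have h2 := Nat.div_add_mod h' q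
        rw [hh.2, he] at h1
        rw [hh'.2] at h2
        omega
    exact_mod_cast this
  have hT : (H.card : ℝ) ≤ q * ((2 * κ / |b| + 1) * ((N / q : ℕ) * |b| + 2)) := by
    rw [hsum]
    push_cast
    refine (sum_le_sum hone).trans ?_
    rw [sum_const, card_range, nsmul_eq_mul]
  have hqN : (q : ℝ) * (N / q : ℕ) ≤ N := by exact_mod_cast Nat.mul_div_le N q
  have hqr : (q : ℝ) ≤ L := by exact_mod_cast hqL
  have hq0 : (0 : ℝ) < q := by exact_mod_cast hq1
  have h1 : (q : ℝ) * ((2 * κ / |b| + 1) * ((N / q : ℕ) * |b| + 2)) ≤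
      (2 * κ / |b| + 1) * (N * |b| + 2 * q) := by
    have : (q : ℝ) * ((2 * κ / |b| + 1) * ((N / q : ℕ) * |b| + 2)) =
      (2 * κ / |b| + 1) * ((q * (N / q : ℕ)) * |b| + 2 * q) := by ring
    rw [this]
    have : 0 ≤ 2 * κ / |b| + 1 := by positivity
    gcongr
  have h2 : (2 * κ / |b| + 1) * (N * |b| + 2 * q) = 2 * κ * N + N * |b| + 2 * q + 4 * q * κ / |b| := by
    field_simp
    ring
  have h3 : c * N ≤ 2 * κ * N + N * |b| + 2 * q + 4 * q * κ / |b| := by linarith
  have h4 : (N : ℝ) * |b| ≤ 2 * κ * N := by nlinarith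
  have h5 : 4 * κ * N ≤ c * N / 4 := by nlinarith
  have h6 : c * N / 2 ≤ 4 * q * κ / |b| := by linarith
  rw [le_div_iff₀ hbp] at h6
  rw [le_div_iff₀ hN0]
  have h7 : |b| * N * c ≤ 8 * L * κ := by nlinarith
  have h8 : 8 * L * κ ≤ c * (C0 + L) * κ := by
    have : (0 : ℝ) ≤ c * L := by positivity
    exact mul_le_mul_of_nonneg_right (by linarith) hκ
  have h9 : |b| * N * c ≤ ((C0 + L : ℕ) : ℝ) * κ * c := by
    push_cast; linarith
  exact le_of_mul_le_mul_right h9 hc

end Pool.Agent.H42.BF
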