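import Mathlib
import Pool.Agent.H42.BF.Rec

set_option autoImplicit false

/-!
# Project BF, module WEYL
-/

namespace Pool.Agent.H42.BF

open Finset Polynomial Pool.Agent.H28.BF

theorem ex_add (x y : ℝ) : ex (x + y) = ex x * ex y := by
  unfold ex; rw [← Complex.exp_add]; congr 1; push_cast; ring

theorem norm_ex (x : ℝ) : ‖ex x‖ = 1 := by
  unfold ex
  rw [show (2 * Real.pi * x * Complex.I : ℂ) = ((2 * Real.pi * x : ℝ) : ℂ) * Complex.I by
    push_cast; ring]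
  exact Complex.norm_exp_ofReal_mul_I _

theorem ex_int (m : ℤ) : ex m = 1 := by
  unfold ex
  rw [show (2 * Real.pi * ((m : ℝ) : ℂ) * Complex.I : ℂ) = m * (2 * Real.pi * Complex.I) by
    push_cast; ring]
  exact Complex.exp_int_mul_two_pi_mul_I m

theorem conj_ex (x : ℝ) : (starRingEnd ℂ) (ex x) = ex (-x) := by
  unfold ex
  rw [← Complex.exp_conj]
  congr 1
  simp only [map_mul, Complex.conj_ofReal, Complex.conj_I, map_ofNat]
  push_cast; ring

theorem nd_half (x : ℝ) : nd x ≤ 1 / 2 := abs_sub_round x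

theorem nd_natmul (k : ℕ) (x : ℝ) : nd (k * x) ≤ k * nd x := by
  refine (nd_le _ (k * round x)).trans ?_
  unfold nd
  push_cast
  rw [← mul_sub, abs_mul, Nat.abs_cast]

/-- `4 ‖x‖ ≤ |e(x) - 1|` -/
theorem four_nd (x : ℝ) : 4 * nd x ≤ ‖ex x - 1‖ := by
  have h1 : ex x = ex (x - round x) := by
    have := ex_add (x - round x) (round x)
    rw [ex_int, mul_one, sub_add_cancel] at this
    exact this
  rw [h1]
  set d : ℝ := x - round x with hd
  have hd2 : |d| ≤ 1 / 2 := abs_sub_round x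
  have h2 : ex d = Complex.exp (Complex.I * ((2 * Real.pi * d : ℝ) : ℂ)) := by
    unfold ex; congr 1; push_cast; ring
  rw [h2, Complex.norm_exp_I_mul_ofReal_sub_one]
  have h3 : 2 / Real.pi * |Real.pi * d| ≤ |Real.sin (Real.pi * d)| :=
    Real.mul_abs_le_abs_sin (by
      rw [abs_mul, abs_of_pos Real.pi_pos]; nlinarith [Real.pi_pos])
  rw [show 2 * Real.pi * d / 2 = Real.pi * d by ring, Real.norm_eq_abs, abs_mul, abs_two]
  rw [abs_mul, abs_of_pos Real.pi_pos] at h3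
  have h4 : 2 / Real.pi * (Real.pi * |d|) = 2 * |d| := by
    field_simp
  rw [h4] at h3
  change 4 * |d| ≤ _
  linarith

theorem sum_Ioc (g : ℕ → ℂ) (N : ℕ) : ∑ n ∈ Ioc 0 N, g n = ∑ n ∈ range N, g (n + 1) := by
  induction N with
  | zero => simp
  | succ N ih => rw [sum_range_succ, ← ih, Finset.sum_Ioc_succ_top (Nat.zero_le N)]

/-- differencing -/
theorem diff_ineq (z : ℕ → ℂ) (N : ℕ) :
    ‖∑ n ∈ range N, z n‖ ^ 2 ≤
      2 * ∑ h ∈ range N, ‖∑ n ∈ range (N - h), z (n + h) * (starRingEnd ℂ) (z n)‖ := by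
  have h1 : ∀ N, ‖∑ n ∈ range N, z n‖ ^ 2 ≤
      2 * (∑ m ∈ range N, z m * (starRingEnd ℂ) (∑ n ∈ range (m + 1), z n)).re := by
    intro N
    induction N with
    | zero => simp
    | succ N ih =>
      rw [sum_range_succ (fun m => z m * (starRingEnd ℂ) (∑ n ∈ range (m + 1), z n)),
        Complex.add_re, sum_range_succ z]
      set S := ∑ n ∈ range N, z n with hS
      rw [Complex.sq_norm, Complex.normSq_apply] at ih ⊢
      simp only [Complex.add_re, Complex.add_im, Complex.mul_re, Complex.conj_re,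
        Complex.conj_im, map_add]
      nlinarith [sq_nonneg (z N).re, sq_nonneg (z N).im]
  have h2 : ∑ m ∈ range N, z m * (starRingEnd ℂ) (∑ n ∈ range (m + 1), z n) =
      ∑ h ∈ range N, ∑ n ∈ range (N - h), z (n + h) * (starRingEnd ℂ) (z n) := by
    rw [← Finset.sum_range_diag_flip N (fun h n => z (n + h) * (starRingEnd ℂ) (z n))]
    refine sum_congr rfl fun m hm => ?_
    rw [map_sum, mul_sum]
    refine (Finset.sum_range_reflect _ _).symm.trans ?_
    refine sum_congr rfl fun k hk => ?_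
    have : k ≤ m := Nat.lt_succ_iff.1 (mem_range.1 hk)
    rw [show m + 1 - 1 - k = m - k by omega, show m - k + k = m by omega]
  refine (h1 N).trans ?_
  rw [h2]
  have h3 := (Complex.re_le_norm
    (∑ h ∈ range N, ∑ n ∈ range (N - h), z (n + h) * (starRingEnd ℂ) (z n))).trans
    (norm_sum_le _ _)
  linarith

/-- the difference polynomial -/
theorem dif_coeff (P : ℝ[X]) (D : ℕ) (hP : P.natDegree ≤ D + 1) (h : ℝ) :
    (taylor h P - P).natDegree ≤ D ∧ (taylor h P - P).coeff D = (D + 1) * h * P.coeff (D + 1) := by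
  constructor
  · rw [natDegree_le_iff_coeff_eq_zero]
    intro n hn
    rw [coeff_sub, taylor_coeff]
    have h1 : (hasseDeriv n P).natDegree < 1 := by
      have := natDegree_hasseDeriv_le P n
      omega
    rw [eval_eq_sum_range' h1, sum_range_one, hasseDeriv_coeff]
    simp
  · rw [coeff_sub, taylor_coeff]
    have h1 : (hasseDeriv D P).natDegree < 2 := by
      have := natDegree_hasseDeriv_le P D
      omega
    rw [eval_eq_sum_range' h1, sum_range_succ, sum_range_one, hasseDeriv_coeff, hasseDeriv_coeff]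
    have h2 : (1 + D).choose D = D + 1 := by
      rw [add_comm, Nat.choose_succ_self_right]
    rw [h2, add_comm 1 D]
    simp
    ring

/-- the Weyl property in degree `D` -/
def Wp (D : ℕ) : Prop := ∀ η : ℝ, 0 < η → ∃ C : ℕ, 1 ≤ C ∧
  ∀ (N : ℕ) (P : ℝ[X]), 1 ≤ N → P.natDegree ≤ D → η * N ≤ ‖∑ n ∈ Ioc 0 N, ex (P.eval (n : ℝ))‖ →
  ∃ q : ℕ, 1 ≤ q ∧ q ≤ C ∧ nd (q * P.coeff D) ≤ C / (N : ℝ) ^ D

theorem base : Wp 1 := by
  intro η hη
  obtain ⟨C, hC⟩ : ∃ C : ℕ, 1 / η + 1 ≤ C := exists_nat_ge _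
  have hη1 : 0 < 1 / η := by positivity
  refine ⟨C, by exact_mod_cast (by linarith : (1 : ℝ) ≤ C), ?_⟩
  intro N P hN hP hS
  refine ⟨1, le_rfl, by exact_mod_cast (by linarith : (1 : ℝ) ≤ C), ?_⟩
  have hN0 : (0 : ℝ) < N := by exact_mod_cast hN
  set a := P.coeff 1 with ha
  have hev : ∀ x : ℝ, P.eval x = P.coeff 0 + a * x := by
    intro x
    rw [eval_eq_sum_range' (by omega : P.natDegree < 2), sum_range_succ, sum_range_one]
    simp [ha]
  have h1 : (ex a - 1) * ∑ n ∈ Ioc 0 N, ex (P.eval (n : ℝ)) =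
      ex (P.coeff 0 + a * (N + 1)) - ex (P.coeff 0 + a) := by
    rw [sum_Ioc]
    have h2 : ∀ n : ℕ, (ex a - 1) * ex (P.eval ((n + 1 : ℕ) : ℝ)) =
        ex (P.coeff 0 + a * ((n + 1 : ℕ) + 1)) - ex (P.coeff 0 + a * ((n : ℕ) + 1)) := by
      intro n
      rw [hev]
      have : P.coeff 0 + a * (((n + 1 : ℕ) : ℝ) + 1) = a + (P.coeff 0 + a * ((n + 1 : ℕ) : ℝ)) := by
        ring
      rw [this, ex_add a]
      push_cast
      ring
    rw [mul_sum, sum_congr rfl fun n _ => h2 n,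
      sum_range_sub (fun n : ℕ => ex (P.coeff 0 + a * ((n : ℝ) + 1)))]
    simp
  have h2 : ‖ex a - 1‖ * ‖∑ n ∈ Ioc 0 N, ex (P.eval (n : ℝ))‖ ≤ 2 := by
    rw [← norm_mul, h1]
    refine (norm_sub_le _ _).trans ?_
    rw [norm_ex, norm_ex]; norm_num
  have h3 := four_nd a
  have h4 : 0 ≤ nd a := abs_nonneg _
  have h5 : 4 * nd a * (η * N) ≤ 2 := by
    refine le_trans ?_ h2
    exact mul_le_mul h3 hS (by positivity) (norm_nonneg _)
  rw [Nat.cast_one, one_mul, pow_one, le_div_iff₀ hN0]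
  have h6 : nd a * N * η ≤ 1 / η * η := by
    rw [one_div, inv_mul_cancel₀ hη.ne']; linarith
  have h7 := le_of_mul_le_mul_right h6 hη
  linarith

theorem step (hREC : S_REC) (D : ℕ) (hD : 1 ≤ D) (ih : Wp D) : Wp (D + 1) := by
  intro η hη
  have hη' : 0 < η ^ 2 / 8 := by positivity
  obtain ⟨C1, hC1, ih1⟩ := ih (η ^ 2 / 8) hη'
  obtain ⟨C2, κ₀, hC2, hκ₀, hR⟩ := hREC (η ^ 2 / 4) (by positivity)
  set K : ℝ := (C1.factorial : ℝ) * (C1 * (1 / (η ^ 2 / 8)) ^ D) with hK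
  have hK0 : 0 ≤ K := by positivity
  obtain ⟨N₀, hN₀⟩ : ∃ N₀ : ℕ, (C2 : ℝ) + 8 / η ^ 2 + K / κ₀ + 1 ≤ N₀ := exists_nat_ge _
  obtain ⟨C, hC⟩ : ∃ C : ℕ, (C2 : ℝ) * (C1.factorial * (D + 1)) + C2 * K + (N₀ : ℝ) ^ (D + 1) + 1 ≤ C :=
    exists_nat_ge _
  have p1 : (0 : ℝ) ≤ C2 := Nat.cast_nonneg _
  have p2 : (0 : ℝ) ≤ 8 / η ^ 2 := by positivity
  have p3 : 0 ≤ K / κ₀ := by positivity
  have p4 : (0 : ℝ) ≤ (C2 : ℝ) * (C1.factorial * (D + 1)) := by positivity
  have p5 : (0 : ℝ) ≤ C2 * K := by positivity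
  have p6 : (0 : ℝ) ≤ (N₀ : ℝ) ^ (D + 1) := by positivity
  refine ⟨C, by exact_mod_cast (by linarith : (1 : ℝ) ≤ C), ?_⟩
  intro N P hN hP hS
  have hN1 : (1 : ℝ) ≤ N := by exact_mod_cast hN
  have hN0 : (0 : ℝ) < N := by linarith
  rcases lt_or_ge N N₀ with hlt | hge
  · refine ⟨1, le_rfl, by exact_mod_cast (by linarith : (1 : ℝ) ≤ C), ?_⟩
    refine (nd_half _).trans ?_
    rw [le_div_iff₀ (by positivity)]
    have : (N : ℝ) ^ (D + 1) ≤ (N₀ : ℝ) ^ (D + 1) := by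
      have : (N : ℝ) ≤ N₀ := by exact_mod_cast hlt.le
      gcongr
    linarith
  have hNN : (N₀ : ℝ) ≤ N := by exact_mod_cast hge
  set a := P.coeff (D + 1) with ha
  -- the differenced sums
  set A : ℕ → ℂ := fun h => ∑ n ∈ Ioc 0 (N - h), ex ((taylor (h : ℝ) P - P).eval (n : ℝ)) with hA
  have hAe : ∀ h : ℕ, ∑ n ∈ range (N - h), ex (P.eval ((n + h + 1 : ℕ) : ℝ)) *
      (starRingEnd ℂ) (ex (P.eval ((n + 1 : ℕ) : ℝ))) = A h := by
    intro h
    rw [hA]
    simp only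
    rw [sum_Ioc]
    refine sum_congr rfl fun n _ => ?_
    rw [conj_ex, ← ex_add, eval_sub, taylor_eval]
    congr 1
    push_cast
    rw [← sub_eq_add_neg]
    congr 2
    ring
  have h1 : (η * N) ^ 2 ≤ 2 * ∑ h ∈ range N, ‖A h‖ := by
    have h2 := diff_ineq (fun n => ex (P.eval ((n + 1 : ℕ) : ℝ))) N
    simp only [hAe] at h2
    rw [← sum_Ioc (fun n => ex (P.eval (n : ℝ)))] at h2
    refine le_trans ?_ h2
    have : 0 ≤ η * N := by positivity
    gcongr
  have hAb : ∀ h : ℕ, ‖A h‖ ≤ ((N - h : ℕ) : ℝ) := by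
    intro h
    refine (norm_sum_le _ _).trans ?_
    simp only [norm_ex, sum_const, Nat.card_Ioc, nsmul_eq_mul, mul_one, tsub_zero, le_refl]
  have hAN : ∀ h : ℕ, ‖A h‖ ≤ N := fun h => (hAb h).trans (by exact_mod_cast Nat.sub_le N h)
  set H := (Icc 1 N).filter (fun h : ℕ => η ^ 2 / 8 * N ≤ ‖A h‖) with hH
  have h2 : ∑ h ∈ range N, ‖A h‖ ≤ N + (H.card * N + η ^ 2 / 8 * N * N) := by
    have e1 : ∑ h ∈ range N, ‖A h‖ ≤ ∑ h ∈ insert 0 (Icc 1 N), ‖A h‖ := by
      refine sum_le_sum_of_subset_of_nonneg ?_ (fun _ _ _ => norm_nonneg _)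
      intro x hx
      rw [mem_range] at hx
      rw [mem_insert, mem_Icc]
      omega
    refine e1.trans ?_
    rw [sum_insert (by simp)]
    refine add_le_add (hAN 0) ?_
    rw [← sum_filter_add_sum_filter_not (Icc 1 N) (fun h : ℕ => η ^ 2 / 8 * N ≤ ‖A h‖)]
    refine add_le_add ?_ ?_
    · refine (sum_le_card_nsmul _ _ (N : ℝ) fun h _ => hAN h).trans ?_
      rw [nsmul_eq_mul]
    · refine (sum_le_card_nsmul _ _ (η ^ 2 / 8 * N : ℝ) fun h hh => ?_).trans ?_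
      · rw [mem_filter] at hh
        exact (not_le.1 hh.2).le
      · rw [nsmul_eq_mul]
        have : (((Icc 1 N).filter (fun h : ℕ => ¬ η ^ 2 / 8 * N ≤ ‖A h‖)).card : ℝ) ≤ N := by
          have := card_filter_le (Icc 1 N) (fun h : ℕ => ¬ η ^ 2 / 8 * N ≤ ‖A h‖)
          rw [Nat.card_Icc] at this
          exact_mod_cast this
        rw [mul_comm]
        exact mul_le_mul_of_nonneg_left this (by positivity)
  have h3 : η ^ 2 / 4 * N ≤ H.card := by
    have e1 : 8 ≤ η ^ 2 * N := by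
      have : 8 / η ^ 2 ≤ N := by linarith
      rw [div_le_iff₀ (by positivity)] at this
      linarith
    have e2 : η ^ 2 / 4 * N * N ≤ H.card * N := by nlinarith
    exact le_of_mul_le_mul_right e2 hN0
  set θ : ℝ := ((C1.factorial * (D + 1) : ℕ) : ℝ) * a with hθ
  have h4 : H ⊆ (Icc 1 N).filter (fun h : ℕ => nd (h * θ) ≤ K / (N : ℝ) ^ D) := by
    intro h hh
    rw [hH, mem_filter] at hh
    rw [mem_filter]
    refine ⟨hh.1, ?_⟩
    have hpos : (0 : ℝ) < η ^ 2 / 8 * N := by positivity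
    have e1 : η ^ 2 / 8 * N ≤ ((N - h : ℕ) : ℝ) := hh.2.trans (hAb h)
    have e2 : 1 ≤ N - h := by
      have : (0 : ℝ) < ((N - h : ℕ) : ℝ) := by linarith
      exact_mod_cast this
    obtain ⟨hd1, hd2⟩ := dif_coeff P D hP h
    obtain ⟨q, hq1, hq2, hq3⟩ := ih1 (N - h) (taylor (h : ℝ) P - P) e2 hd1 (by
      refine le_trans ?_ hh.2
      have : ((N - h : ℕ) : ℝ) ≤ N := by exact_mod_cast Nat.sub_le N h
      gcongr)
    rw [hd2] at hq3
    obtain ⟨m, hm⟩ : q ∣ C1.factorial := Nat.dvd_factorial hq1 hq2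
    have e3 : (h : ℝ) * θ = m * (q * ((D + 1) * h * a)) := by
      rw [hθ, hm]; push_cast; ring
    rw [e3]
    refine (nd_natmul m _).trans ?_
    have e4 : (m : ℝ) ≤ C1.factorial := by
      have : m ≤ C1.factorial := Nat.le_of_dvd (Nat.factorial_pos _) ⟨q, by rw [hm]; ring⟩
      exact_mod_cast this
    have e5 : (C1 : ℝ) / ((N - h : ℕ) : ℝ) ^ D ≤ C1 * (1 / (η ^ 2 / 8)) ^ D / (N : ℝ) ^ D := by
      have e6 : (C1 : ℝ) * (1 / (η ^ 2 / 8)) ^ D / (N : ℝ) ^ D = C1 / (η ^ 2 / 8 * N) ^ D := by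
        rw [one_div, inv_pow, mul_pow]
        field_simp
      rw [e6]
      gcongr
    calc (m : ℝ) * nd (q * ((D + 1) * h * a))
        ≤ C1.factorial * (C1 * (1 / (η ^ 2 / 8)) ^ D / (N : ℝ) ^ D) :=
          mul_le_mul e4 (hq3.trans e5) (abs_nonneg _) (Nat.cast_nonneg _)
      _ = K / (N : ℝ) ^ D := by rw [hK]; ring
  have h5 : K / (N : ℝ) ^ D ≤ κ₀ := by
    have e1 : (N : ℝ) ≤ (N : ℝ) ^ D := le_self_pow₀ hN1 (by omega)
    have e2 : K / (N : ℝ) ^ D ≤ K / N := div_le_div_of_nonneg_left hK0 hN0 e1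
    refine e2.trans ?_
    rw [div_le_iff₀ hN0]
    have e3 : K / κ₀ ≤ N := by linarith
    rw [div_le_iff₀ hκ₀] at e3
    linarith
  obtain ⟨q, hq1, hq2, hq3⟩ := hR N θ (K / (N : ℝ) ^ D)
    (by exact_mod_cast (by linarith : (C2 : ℝ) ≤ N)) (by positivity) h5
    (h3.trans (by exact_mod_cast card_le_card h4))
  refine ⟨q * (C1.factorial * (D + 1)), ?_, ?_, ?_⟩
  · have : 0 < C1.factorial := Nat.factorial_pos _
    exact Nat.mul_pos hq1 (Nat.mul_pos this (Nat.succ_pos D))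
  · have e1 : ((q * (C1.factorial * (D + 1)) : ℕ) : ℝ) ≤ C := by
      push_cast
      have e2 : (q : ℝ) ≤ C2 := by exact_mod_cast hq2
      have e3 : (q : ℝ) * (C1.factorial * (D + 1)) ≤ C2 * (C1.factorial * (D + 1)) := by gcongr
      linarith
    exact_mod_cast e1
  · have e1 : ((q * (C1.factorial * (D + 1)) : ℕ) : ℝ) * a = q * θ := by
      rw [hθ]; push_cast; ring
    rw [e1]
    refine hq3.trans ?_
    have e2 : (C2 : ℝ) * (K / (N : ℝ) ^ D) / N = C2 * K / (N : ℝ) ^ (D + 1) := by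
      rw [pow_succ]; field_simp
    rw [e2]
    gcongr
    linarith

/-- **(WEYL)** -/
theorem t_WEYL (hREC : S_REC) : S_WEYL := by
  intro D hD
  have : Wp D := by
    induction D, hD using Nat.le_induction with
    | base => exact base
    | succ D hD ih => exact step hREC D hD ih
  exact this

end Pool.Agent.H42.BF
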